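import Pool.Agent.Helper478_Pow.Fin

/-!
# The digits of the powers of almost all primes

The question asks for the frequencies of the digits of `p ^ n` in base `q` for fixed primes `p`, `q` as
`n → ∞`.  Here `n` and `q` may grow with `p`: there is an absolute constant `γ > 0` such that for every
`ε > 0` and for all but very few primes `p` (and for all but very few integers `m` in the place of `p`)
the following holds simultaneously for all `n ≤ (log p) ^ γ` and all bases `q ≤ exp ((log p) ^ γ)`:
every digit has the frequency `1 / q` in `p ^ n` up to an error `ε`, and every word of digits has the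
right number of occurrences in every window of places of `p ^ n`, up to `ε n log_q p`.

Proof.  The sums `∑ e (h m ^ n / q ^ i)` over windows of places `i` are large for few `m ∈ (N, 2 N]`
only.  This follows with Riesz products from bounds for `∑_m e (F m ^ n)` for all `F` such that
`N ^ (δ n) ≤ F N ^ n ≤ N ^ ((1 - δ) n)`, which save a factor `exp ((log N) ^ (1 - 9 γ))`, with `n` up
to `(log N) ^ γ`; the differences `m ^ n / q ^ i ± m ^ n / q ^ j ± …` are of this type.  These bounds
come from Vinogradov's mean value theorem with the saving taken from the coefficient of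
`F (m + x y) ^ n` in the degree `j` with `F N ^ (n - j)` a little smaller than `1`.
-/

set_option autoImplicit false

namespace Pool.Agent.Results.MP_b08cb4_nt.AlmostAllPrimes

open Finset

/-- The digits of `m ^ n` in base `q` are well distributed, up to `ε`.  The digit at the place `i`
(`i = 0, 1, 2, …`) is `m ^ n / q ^ i % q`, the word of the `l` digits at the places
`i, …, i + l - 1`, read as a number in `[0, q ^ l)`, is `m ^ n / q ^ i % q ^ l`, and
`n * log_q m` is the number of digits of `m ^ n`, up to an error of at most one. -/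
structure WellDistributed (ε : ℝ) (q m n : ℕ) : Prop where
  /-- for every digit `b` the number of digits `b` of `m ^ n`, divided by `n log_q m`, differs from
  `1 / q` by at most `ε` -/
  digit : ∀ b < q, |((Nat.digits q (m ^ n)).count b : ℝ) / (n * Real.logb q m) - 1 / q| ≤ ε
  /-- for every `l ≥ 1`, every word `c` of `l` digits and all `u ≤ v` with `v - 1 + l` at most the
  number of digits, the number of occurrences of `c` that begin at one of the places
  `u, …, v - 1` differs from `(v - u) / q ^ l` by at most `ε n log_q m` -/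
  word : ∀ l c u v : ℕ, 1 ≤ l → c < q ^ l → u ≤ v → v + l ≤ (Nat.digits q (m ^ n)).length + 1 →
    |(((Ico u v).filter fun i => m ^ n / q ^ i % q ^ l = c).card : ℝ) - ((v : ℝ) - u) / (q : ℝ) ^ l| ≤
      ε * (n * Real.logb q m)
  /-- the same for the fractional parts of `m ^ n / q ^ i` and all intervals `[s, t)` -/
  interval : ∀ u v : ℕ, u ≤ v → v ≤ (Nat.digits q (m ^ n)).length → ∀ s t : ℝ, 0 ≤ s → s ≤ t → t ≤ 1 →
    |(((Ioc u v).filter fun i => s ≤ Int.fract ((m : ℝ) ^ n / (q : ℝ) ^ i) ∧
      Int.fract ((m : ℝ) ^ n / (q : ℝ) ^ i) < t).card : ℝ) - ((v : ℝ) - u) * (t - s)| ≤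
      ε * (n * Real.logb q m)

/-- the digits of `m ^ n` in base `q` are well distributed, up to `ε`, for all exponents
`1 ≤ n ≤ (log m) ^ γ` and all bases `q ≥ 2` with `log q ≤ (log m) ^ γ` -/
def Good (γ ε : ℝ) (m : ℕ) : Prop :=
  ∀ n q : ℕ, 1 ≤ n → (n : ℝ) ≤ (Real.log m) ^ γ → 2 ≤ q → Real.log q ≤ (Real.log m) ^ γ →
    WellDistributed ε q m n

lemma good_of (γ ε : ℝ) (m : ℕ) (h : Pool.Agent.Helper478.Pow.Good γ ε m) : Good γ ε m := by
  intro n q h1 h2 h3 h4
  obtain ⟨a, b, c⟩ := h n q h1 h2 h3 h4
  exact ⟨a, b, c⟩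

open Classical in
/-- There is `γ > 0` such that for every `ε > 0` and all large `x` all but at most
`x exp (- √(log x) / 2)` of the integers `m ≤ x` are good, and all but at most
`π(x) exp (- √(log x) / 3)` of the primes `p ≤ x` are good. -/
theorem result : ∃ γ : ℝ, 0 < γ ∧ ∀ ε : ℝ, 0 < ε → ∃ x₀ : ℕ, ∀ x : ℕ, x₀ ≤ x →
    (((Icc 1 x).filter fun m => ¬ Good γ ε m).card : ℝ) ≤ x * Real.exp (-(√(Real.log x) / 2)) ∧
    (((Icc 1 x).filter fun p => p.Prime ∧ ¬ Good γ ε p).card : ℝ) ≤
      Nat.primeCounting x * Real.exp (-(√(Real.log x) / 3)) := by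
  obtain ⟨γ, hγ, h⟩ := Pool.Agent.Helper478.Pow.all_p
  refine ⟨γ, hγ, fun ε hε => ?_⟩
  obtain ⟨x₀, hx₀⟩ := h ε hε
  refine ⟨x₀, fun x hx => ?_⟩
  obtain ⟨h1, h2⟩ := hx₀ x hx
  refine ⟨le_trans ?_ h1, le_trans ?_ h2⟩
  · refine Nat.cast_le.2 (card_le_card fun m hm => ?_)
    rw [mem_filter] at hm ⊢
    exact ⟨hm.1, fun h3 => hm.2 (good_of γ ε m h3)⟩
  · refine Nat.cast_le.2 (card_le_card fun m hm => ?_)
    rw [mem_filter] at hm ⊢
    exact ⟨hm.1, hm.2.1, fun h3 => hm.2.2 (good_of γ ε m h3)⟩

end Pool.Agent.Results.MP_b08cb4_nt.AlmostAllPrimes
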